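import Pool.Agent.Helper41.OA.Defs

/-!
# Project OA, pieces OA-11 ... OA-14: the norms of polynomials
-/

set_option autoImplicit false

namespace Pool.Agent.Helper63.OA

open Finset
open Pool.Agent.Helper41.OA

lemma hasSum_coeff (p : Polynomial ℂ) (z : ℂ) : HasSum (fun n => p.coeff n * z ^ n) (p.eval z) := by
  rw [Polynomial.eval_eq_sum_range]
  refine hasSum_sum_of_ne_finset_zero fun n hn => ?_
  rw [mem_range, not_lt] at hn
  rw [Polynomial.coeff_eq_zero_of_natDegree_lt (by omega), zero_mul]

lemma sum_norm_coeff_le (p : Polynomial ℂ) (N : ℕ) :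
    ∑ k ∈ range N, ‖p.coeff k‖ ≤ ∑ k ∈ range (p.natDegree + 1), ‖p.coeff k‖ := by
  have h1 : ∑ k ∈ range (max N (p.natDegree + 1)), ‖p.coeff k‖ =
      ∑ k ∈ range (p.natDegree + 1), ‖p.coeff k‖ := by
    symm
    refine sum_subset (range_subset_range.2 (le_max_right _ _)) fun k _ hk => ?_
    rw [mem_range, not_lt] at hk
    rw [Polynomial.coeff_eq_zero_of_natDegree_lt (by omega), norm_zero]
  rw [← h1]
  exact sum_le_sum_of_subset_of_nonneg (range_subset_range.2 (le_max_left _ _))
    fun k _ _ => norm_nonneg _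

/-- The matrix with first row `c`. -/
def row (c : ℕ → ℂ) (m k : ℕ) : ℂ := if m = 0 then c k else 0

lemma antidiag_row (c : ℕ → ℂ) (n : ℕ) : ∑ p ∈ antidiagonal n, row c p.1 p.2 = c n := by
  rw [sum_eq_single (0, n)]
  · simp [row]
  · rintro ⟨i, j⟩ h1 h2
    rw [HasAntidiagonal.mem_antidiagonal] at h1
    unfold row
    rw [if_neg]
    rintro rfl
    apply h2
    simp only [zero_add] at h1
    rw [h1]
  · intro h
    exact absurd (HasAntidiagonal.mem_antidiagonal.2 (zero_add n)) h

lemma normL_le (p : Polynomial ℂ) :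
    normL (fun z => p.eval z) ≤
      ENNReal.ofReal (∑ k ∈ range (p.natDegree + 1), ‖p.coeff k‖) := by
  unfold normL
  refine iInf₂_le_of_le (row p.coeff) ?_ ?_
  · intro z _
    simp only [antidiag_row]
    exact hasSum_coeff p z
  · unfold injNorm
    refine iSup_le fun N => iSup_le fun x => iSup_le fun y => iSup_le fun hx => iSup_le fun hy => ?_
    apply ENNReal.ofReal_le_ofReal
    refine (norm_sum_le _ _).trans ?_
    have h1 : ∀ m ∈ range N, ‖∑ k ∈ range N, row p.coeff m k * x m * y k‖ ≤
        if m = 0 then ∑ k ∈ range N, ‖p.coeff k‖ else 0 := by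
      intro m _
      by_cases hm : m = 0
      · rw [if_pos hm]
        refine (norm_sum_le _ _).trans (sum_le_sum fun k _ => ?_)
        unfold row
        rw [if_pos hm, norm_mul, norm_mul]
        calc ‖p.coeff k‖ * ‖x m‖ * ‖y k‖ ≤ ‖p.coeff k‖ * 1 * 1 := by
              gcongr
              · exact hx m
              · exact hy k
          _ = ‖p.coeff k‖ := by ring
      · rw [if_neg hm]
        unfold row
        simp [hm]
    refine (sum_le_sum h1).trans ?_
    rw [sum_ite_eq']
    split_ifs
    · exact sum_norm_coeff_le p N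
    · exact sum_nonneg fun k _ => norm_nonneg _

/-- OA-11. -/
theorem normL_poly (p : Polynomial ℂ) : normL (fun z => p.eval z) < ⊤ :=
  (normL_le p).trans_lt ENNReal.ofReal_lt_top

lemma sum_X_pow (n : ℕ) : ∑ k ∈ range ((Polynomial.X ^ n : Polynomial ℂ).natDegree + 1),
    ‖(Polynomial.X ^ n : Polynomial ℂ).coeff k‖ = 1 := by
  rw [Polynomial.natDegree_X_pow, sum_eq_single n]
  · rw [Polynomial.coeff_X_pow, if_pos rfl, norm_one]
  · intro k _ hk
    rw [Polynomial.coeff_X_pow, if_neg hk, norm_zero]
  · intro h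
    exact absurd (mem_range.2 (Nat.lt_succ_self n)) h

/-- OA-12. -/
theorem normL_pow (n : ℕ) : normL (fun z => z ^ n) ≤ 1 := by
  have h1 := normL_le (Polynomial.X ^ n)
  rw [sum_X_pow, ENNReal.ofReal_one] at h1
  simpa using h1

lemma hasSum_single_pow (m : ℕ) (c z : ℂ) :
    HasSum (fun n => (if n = m then c else 0) * z ^ n) (c * z ^ m) := by
  have h1 : (fun n => (if n = m then c else 0) * z ^ n) =
      fun n => if n = m then c * z ^ m else 0 := by
    funext n
    split_ifs with h
    · rw [h]
    · rw [zero_mul]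
  rw [h1]
  exact hasSum_ite_eq m (c * z ^ m)

lemma normVMO_monomial (m : ℕ) (c : ℂ) : normVMO (fun z => c * z ^ m) ≤ ENNReal.ofReal ‖c‖ := by
  unfold normVMO
  refine iInf₂_le_of_le (c • (fourier (m : ℤ) : C(UnitAddCircle, ℂ))) ?_ ?_
  · intro z _
    have h1 : ∀ n : ℕ, fourierCoeff (⇑(c • (fourier (m : ℤ) : C(UnitAddCircle, ℂ)))) (n : ℤ) =
        if n = m then c else 0 := by
      intro n
      rw [ContinuousMap.coe_smul, fourierCoeff.const_smul, fourierCoeff_fourier]
      by_cases h : n = m
      · subst h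
        simp
      · rw [if_neg h, Pi.single_eq_of_ne (by exact_mod_cast h), smul_zero]
    simp only [h1]
    exact hasSum_single_pow m c z
  · apply ENNReal.ofReal_le_ofReal
    rw [norm_smul, fourier_norm, mul_one]

lemma normH1_pow (m : ℕ) : normH1 (fun z => z ^ m) ≤ 1 := by
  unfold normH1
  refine iSup_le fun r => iSup_le fun hr0 => iSup_le fun hr1 => ?_
  rw [← ENNReal.ofReal_one]
  apply ENNReal.ofReal_le_ofReal
  have h1 : Real.circleAverage (fun z : ℂ => ‖z ^ m‖) 0 r = r ^ m := by
    apply Real.circleAverage_const_on_circle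
    intro x hx
    rw [mem_sphere_zero_iff_norm] at hx
    rw [norm_pow, hx, abs_of_pos hr0]
  rw [h1]
  exact pow_le_one₀ hr0.le hr1.le

lemma normVH_le (p : Polynomial ℂ) :
    normVH (fun z => p.eval z) ≤
      ENNReal.ofReal (∑ k ∈ range (p.natDegree + 1), ‖p.coeff k‖) := by
  unfold normVH
  refine iInf_le_of_le (fun m z => p.coeff m * z ^ m) ?_
  refine iInf_le_of_le (fun m z => z ^ m) ?_
  refine iInf_le_of_le (fun m n => if n = m then p.coeff m else 0) ?_
  refine iInf_le_of_le (fun m n => if n = m then 1 else 0) ?_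
  refine iInf_le_of_le p.coeff ?_
  refine iInf_le_of_le (fun m z _ => hasSum_single_pow m _ z) ?_
  refine iInf_le_of_le (fun m z _ => by simpa using hasSum_single_pow m 1 z) ?_
  refine iInf_le_of_le (fun z _ => hasSum_coeff p z) ?_
  refine iInf_le_of_le ?_ ?_
  · intro n
    have h1 : (fun m => (if n = m then p.coeff m else 0) * (if n = m then (1 : ℂ) else 0)) =
        fun m => if m = n then p.coeff n else 0 := by
      funext m
      by_cases h : n = m
      · subst h
        simp
      · rw [if_neg h, if_neg (Ne.symm h), zero_mul]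
    show HasSum (fun m => (if n = m then p.coeff m else 0) * (if n = m then (1 : ℂ) else 0))
      (p.coeff n)
    rw [h1]
    exact hasSum_ite_eq n (p.coeff n)
  · have h1 : ∀ m, normVMO (fun z => p.coeff m * z ^ m) * normH1 (fun z => z ^ m) ≤
        ENNReal.ofReal ‖p.coeff m‖ := by
      intro m
      calc normVMO (fun z => p.coeff m * z ^ m) * normH1 (fun z => z ^ m) ≤
            ENNReal.ofReal ‖p.coeff m‖ * 1 := mul_le_mul' (normVMO_monomial m _) (normH1_pow m)
        _ = _ := mul_one _
    calc ∑' m, normVMO (fun z => p.coeff m * z ^ m) * normH1 (fun z => z ^ m)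
        ≤ ∑' m, ENNReal.ofReal ‖p.coeff m‖ := ENNReal.tsum_le_tsum h1
      _ = ∑ m ∈ range (p.natDegree + 1), ENNReal.ofReal ‖p.coeff m‖ := by
          apply tsum_eq_sum
          intro m hm
          rw [mem_range, not_lt] at hm
          rw [Polynomial.coeff_eq_zero_of_natDegree_lt (by omega), norm_zero, ENNReal.ofReal_zero]
      _ = _ := (ENNReal.ofReal_sum_of_nonneg fun k _ => norm_nonneg _).symm

/-- OA-13. -/
theorem normVH_poly (p : Polynomial ℂ) : normVH (fun z => p.eval z) < ⊤ :=
  (normVH_le p).trans_lt ENNReal.ofReal_lt_top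

/-- OA-14. -/
theorem normVH_pow (n : ℕ) : normVH (fun z => z ^ n) ≤ 1 := by
  have h1 := normVH_le (Polynomial.X ^ n)
  rw [sum_X_pow, ENNReal.ofReal_one] at h1
  simpa using h1

end Pool.Agent.Helper63.OA
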